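import Pool.Agent.H27.G.R_seed8.H306R2.RZ.Defs3
import Pool.Agent.H27.G.R_seed8.H306R2.RZ.Defs6

set_option autoImplicit false

/-!
Definitions for project RG: real zeros for ALL real primitive characters. A family `φ` of real
characters is indexed by `d ∈ A` (odd); for odd `n` the value is `(e d | n)`, the value at `2` is
`η`, the conductor is `r d`, the parity is `a` (`0` even, `1` odd), the density of `A` is `δ`.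
-/

namespace Pool.Agent.H306R2.RG

open Finset Filter Topology MeasureTheory Pool.Agent.H306R2.RZ

noncomputable section

structure FD where
  e : ℤ
  r : ℕ
  a : ℕ
  η : ℝ
  δ : ℝ
  A : ℕ → Prop

/-- exponent of the kernel: `-3/4` (even), `-1/4` (odd) -/
def FD.ex (φ : FD) : ℝ := (φ.a : ℝ) / 2 - 3 / 4

/-- discriminants `ε 8 d`, `d` odd -/
def F8 (ε : ℤ) : FD := ⟨2 * ε, 8, if ε = 1 then 0 else 1, 0, 1 / 2, fun d => Odd d⟩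

/-- discriminants `ε 4 d`, `ε d ≡ 3 (4)` -/
def F4 (ε : ℤ) : FD :=
  ⟨ε, 4, if ε = 1 then 0 else 1, 0, 1 / 4, fun d => (ε * (d : ℤ)) % 4 = 3⟩

/-- discriminants `ε d ≡ c (8)`, `c = 1, 5`, not a square -/
def F1 (ε c : ℤ) : FD :=
  ⟨ε, 1, if ε = 1 then 0 else 1, if c = 1 then 1 else -1, 1 / 8,
    fun d => (ε * (d : ℤ)) % 8 = c ∧ ¬ IsSquare (ε * (d : ℤ))⟩

/-- the eight families -/
def Fam (φ : FD) : Prop :=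
  ∃ ε : ℤ, (ε = 1 ∨ ε = -1) ∧ (φ = F8 ε ∨ φ = F4 ε ∨ φ = F1 ε 1 ∨ φ = F1 ε 5)

/-- `(e d | n)` for odd `n`, `0` for even `n` -/
def jo (φ : FD) (d n : ℕ) : ℝ := if Odd n then js (φ.e * (d : ℤ)) n else 0

/-- the full character value at `n ≥ 1` -/
def cf (φ : FD) (d n : ℕ) : ℝ :=
  φ.η ^ (n.factorization 2) * jo φ d (n / 2 ^ (n.factorization 2))

open Classical in
/-- average over the family -/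
def EAg (φ : FD) (F : ℝ → ℝ) (X : ℝ) (f : ℕ → ℝ) : ℝ :=
  (∑' d : ℕ, if φ.A d then F ((d : ℝ) / X) * f d else 0) / X

/-- `N_d[w]` and `M_d[Q]` -/
def Ndg (φ : FD) (q : ℕ) (L : ℝ) (w : ℝ → ℝ) (d : ℕ) : ℝ :=
  ∑' n : ℕ, if Nat.Coprime n q then
    jo φ d n / Real.sqrt n * w (Real.log n / L) else 0

def Mdg (φ : FD) (q : ℕ) (L : ℝ) (Q : ℝ → ℝ) (d : ℕ) : ℝ :=
  ∑' n : ℕ, if Nat.Coprime n q then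
    ((ArithmeticFunction.moebius n : ℤ) : ℝ) * jo φ d n / Real.sqrt n *
      Q (Real.log n / L) else 0

def TTg (φ : FD) (F : ℝ → ℝ) (X : ℝ) (q : ℕ) (L : ℝ) (w1 Q1 w2 Q2 : ℝ → ℝ) : ℝ :=
  EAg φ F X (fun d => Ndg φ q L w1 d * Mdg φ q L Q1 d * (Ndg φ q L w2 d * Mdg φ q L Q2 d))

def TOg (φ : FD) (F : ℝ → ℝ) (X : ℝ) (q : ℕ) (L : ℝ) (w Q : ℝ → ℝ) : ℝ :=
  EAg φ F X (fun d => Ndg φ q L w d * Mdg φ q L Q d)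

/-! ### dual side -/

/-- properties of the function on the dual side -/
structure HP (H : ℂ → ℂ) (z : ℝ) : Prop where
  diff : DifferentiableOn ℂ H {s | 0 < s.re}
  bd : ∀ A : ℕ, ∃ C : ℝ, ∀ s : ℂ, 0 < s.re → s.re ≤ 1 → ‖H s‖ ≤ C / (‖s‖ * (1 + ‖s‖) ^ A)
  lim : ∀ σ : ℂ, 0 < σ.re →
    Tendsto (fun L : ℝ => H (σ / (L : ℂ)) / (L : ℂ)) atTop (𝓝 ((z : ℂ) / σ))

/-- near `Re s = 0` -/
structure HPl (H : ℂ → ℂ) (z : ℝ) : Prop where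
  cont : ContinuousOn H {s | 0 < s.re ∧ s.re ≤ 1 / 4}
  bd : ∀ A : ℕ, ∃ C : ℝ, ∀ s : ℂ, 0 < s.re → s.re ≤ 1 / 4 → ‖H s‖ ≤ C / (‖s‖ * (1 + ‖s‖) ^ A)
  lim : ∀ σ : ℂ, 0 < σ.re →
    Tendsto (fun L : ℝ => H (σ / (L : ℂ)) / (L : ℂ)) atTop (𝓝 ((z : ℂ) / σ))

/-- on the right of `Re s = 1/2` -/
structure HPh (H : ℂ → ℂ) : Prop where
  cont : ContinuousOn H {s | 1 / 2 < s.re ∧ s.re ≤ 1}
  bd : ∀ (A : ℕ) (σ : ℝ), 1 / 2 < σ → ∃ C : ℝ, ∀ s : ℂ, σ ≤ s.re → s.re ≤ 1 →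
    ‖H s‖ ≤ C / (1 + ‖s‖) ^ A

/-- the function with a simple pole at `1/2`, residue `1` -/
def Eh (s : ℂ) : ℂ := Complex.exp ((s - 1 / 2) ^ 2) / (s - 1 / 2)

/-- contribution of the squares to the modulus `n` -/
def Dsg (H : ℂ → ℂ) (X : ℝ) (n : ℕ) (σ0 : ℝ) : ℂ :=
  (1 / (2 * Real.pi) : ℂ) * ∫ t : ℝ, H ((σ0 : ℂ) + t * Complex.I) *
    ((X : ℝ) : ℂ) ^ (-((σ0 : ℂ) + t * Complex.I)) * ks ((σ0 : ℂ) + t * Complex.I) n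

/-- contribution of the non-squares -/
def Dng (F : ℝ → ℝ) (b : ℤ → ℝ) (c X : ℝ) (n : ℕ) : ℝ :=
  (∑' k : ℤ, if IsSquare k then 0 else b k * Gk k n * Ft F (c * (k : ℝ) * X / n)) / n

/-- contributions of the squares, simply and doubly approximated -/
def T2mg (H : ℂ → ℂ) (X : ℝ) (q : ℕ) (L : ℝ) (w1 w2 Q1 Q2 : ℝ → ℝ) (σ0 : ℝ) : ℂ :=
  (Pc q : ℂ) * ((1 / (2 * Real.pi) : ℂ) * ∫ t : ℝ,
    H ((σ0 : ℂ) + t * Complex.I) * ((X : ℝ) : ℂ) ^ (-((σ0 : ℂ) + t * Complex.I)) * (L : ℂ) *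
    (∫ y : ℝ, (w1 y : ℂ) * Complex.exp (((σ0 : ℂ) + t * Complex.I) * L * y)) *
    ∑' a : Fin 3 → ℕ, t2c q ((σ0 : ℂ) + t * Complex.I) a *
      ((w2 (Real.log (a 0) / L) * Q1 (Real.log (a 1) / L) * Q2 (Real.log (a 2) / L) : ℝ) : ℂ))

def T2dg (H : ℂ → ℂ) (X : ℝ) (q : ℕ) (L : ℝ) (w1 w2 Q1 Q2 : ℝ → ℝ) (σ0 : ℝ) : ℂ :=
  (1 / (2 * Real.pi) : ℂ) * ∫ t : ℝ,
    H ((σ0 : ℂ) + t * Complex.I) * ((X : ℝ) : ℂ) ^ (-((σ0 : ℂ) + t * Complex.I)) * (L : ℂ) ^ 2 *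
    (∫ y : ℝ, (w1 y : ℂ) * Complex.exp (((σ0 : ℂ) + t * Complex.I) * L * y)) *
    (∫ y : ℝ, (w2 y : ℂ) * Complex.exp (((σ0 : ℂ) + t * Complex.I) * L * y)) *
    Zq q ((σ0 : ℂ) + t * Complex.I) *
    ∑' a : Fin 2 → ℕ, t5c q ((σ0 : ℂ) + t * Complex.I) a *
      ((Q1 (Real.log (a 0) / L) * Q2 (Real.log (a 1) / L) : ℝ) : ℂ)

/-- Poisson summation for the family, test function `F` -/
def DEC (φ : FD) (F : ℝ → ℝ) : Prop :=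
  ∃ (H : ℂ → ℂ) (b1 b2 : ℤ → ℝ) (c1 c2 g1 g2 : ℝ), HP H (-(φ.δ / 2 * Ft F 0)) ∧
    (∀ k, |b1 k| ≤ 1) ∧ (∀ k, |b2 k| ≤ 1) ∧ c1 ≠ 0 ∧ c2 ≠ 0 ∧
    ∀ X : ℝ, 0 < X → ∀ n : ℕ, Odd n → ∀ σ0 : ℝ, 1 / 2 < σ0 → σ0 ≤ 1 →
      ((EAg φ F X (fun d => js (φ.e * (d : ℤ)) n) : ℝ) : ℂ) =
        ((φ.δ * Ft F 0 * (if IsSquare n then (n.totient : ℝ) / n else 0) : ℝ) : ℂ) +
        Dsg H X n σ0 + ((g1 * Dng F b1 c1 X n + g2 * Dng F b2 c2 X n : ℝ) : ℂ)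

/-- `ρ0 = (1/2) ∫_0^∞ F(u²) du` -/
def rh0 (F : ℝ → ℝ) : ℝ := 1 / 2 * ∫ u in Set.Ioi (0 : ℝ), F (u ^ 2)

/-- contribution of the perfect squares `d = m²`, `m` odd -/
def ESq (F : ℝ → ℝ) (X : ℝ) (n : ℕ) : ℝ :=
  (∑' m : ℕ, if m.Coprime (2 * n) then F ((m : ℝ) ^ 2 / X) else 0) / X

/-- Poisson summation for the family `F1 1 1` (the perfect squares are removed) -/
def DECr (F : ℝ → ℝ) : Prop :=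
  ∃ (H : ℂ → ℂ) (b1 b2 : ℤ → ℝ) (c1 c2 g1 g2 : ℝ), HP H (-((F1 1 1).δ / 2 * Ft F 0)) ∧
    (∀ k, |b1 k| ≤ 1) ∧ (∀ k, |b2 k| ≤ 1) ∧ c1 ≠ 0 ∧ c2 ≠ 0 ∧
    ∀ X : ℝ, 0 < X → ∀ n : ℕ, Odd n → ∀ σ0 : ℝ, 1 / 2 < σ0 → σ0 ≤ 1 →
      ((EAg (F1 1 1) F X (fun d => js ((F1 1 1).e * (d : ℤ)) n) : ℝ) : ℂ) =
        (((F1 1 1).δ * Ft F 0 * (if IsSquare n then (n.totient : ℝ) / n else 0) : ℝ) : ℂ) +
        Dsg (fun s => H s + (rh0 F : ℂ) * Eh s) X n σ0 +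
        ((g1 * Dng F b1 c1 X n + g2 * Dng F b2 c2 X n - ESq F X n : ℝ) : ℂ)

/-! ### analytic input for the second part -/

/-- a good family -/
structure FG (φ : FD) : Prop where
  odd : ∀ d, φ.A d → Odd d
  sq : ∀ a d : ℕ, Odd a → (φ.A (a ^ 2 * d) ↔ φ.A d)
  ha : φ.a = 0 ∨ φ.a = 1
  hη : φ.η = 0 ∨ φ.η = 1 ∨ φ.η = -1
  hr : 1 ≤ φ.r ∧ φ.r ≤ 8
  he : φ.e = 1 ∨ φ.e = -1 ∨ φ.e = 2 ∨ φ.e = -2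
  hδ : 0 < φ.δ
  ub : ∀ (F : ℝ → ℝ), TF F → ∀ (q : ℕ), Even q → q ≠ 0 → ∀ (c : ℝ), 0 < c → ∀ (s θ : ℝ),
    Adm2 s θ →
    ∃ (C L0 : ℝ) (k : ℕ), 0 < C ∧ ∀ L : ℝ, L0 ≤ L → ∀ (w1 w2 Q1 Q2 : ℝ → ℝ) (B1 B2 B3 B4 : ℝ),
      Wt s w1 → Wt s w2 → Wt θ Q1 → Wt θ Q2 → Bd k w1 B1 → Bd k w2 B2 → Bd k Q1 B3 → Bd k Q2 B4 →
      |TTg φ F (c * Real.exp L) q L w1 Q1 w2 Q2| ≤ C * B1 * B2 * B3 * B4
  lim : ∀ (F : ℝ → ℝ), TF F → ∀ (q : ℕ), Even q → q ≠ 0 → ∀ (c : ℝ), 0 < c → ∀ (s θ : ℝ),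
    Adm2 s θ → ∀ (w1 w2 Q1 Q2 : ℝ → ℝ), Wt s w1 → Wt s w2 → Wt θ Q1 → Wt θ Q2 →
    Tendsto (fun L : ℝ => TTg φ F (c * Real.exp L) q L w1 Q1 w2 Q2) atTop
      (𝓝 (φ.δ * Ft F 0 * BB w1 Q1 w2 Q2))
  lim1 : ∀ (F : ℝ → ℝ), TF F → ∀ (q : ℕ), Even q → q ≠ 0 → ∀ (c : ℝ), 0 < c → ∀ (s θ : ℝ),
    Adm2 s θ → ∀ (w Q : ℝ → ℝ), Wt s w → Wt θ Q →
    Tendsto (fun L : ℝ => TOg φ F (c * Real.exp L) q L w Q) atTop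
      (𝓝 (φ.δ * Ft F 0 * (mn w Q / 2)))
  ef1 : ∀ (F : ℝ → ℝ), TF F → ∀ (c : ℝ), 0 < c →
    Tendsto (fun L : ℝ => EAg φ F (c * Real.exp L) (fun _ => 1)) atTop (𝓝 (φ.δ * Ft F 0))

/-! ### theta functions, kernels -/

/-- theta function -/
def thg (φ : FD) (d : ℕ) (y : ℝ) : ℝ :=
  ∑' n : ℕ, cf φ d (n + 1) * ((n : ℝ) + 1) ^ φ.a *
    Real.exp (-(Real.pi * ((n : ℝ) + 1) ^ 2 * y / (φ.r * d)))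

/-- the value `L(σ, χ)` for real `σ > 0` -/
def LLg (φ : FD) (d : ℕ) (σ : ℝ) : ℝ :=
  (∫ y in Set.Ioi (0 : ℝ), thg φ d y * y ^ ((σ + φ.a) / 2 - 1)) /
    (((φ.r : ℝ) * d) ^ ((σ + φ.a) / 2) * gm (σ + φ.a))

/-- `∫_0^∞ e^{-πv} v^α dv` -/
def g0g (φ : FD) : ℝ := ∫ v in Set.Ioi (0 : ℝ), Real.exp (-(Real.pi * v)) * v ^ φ.ex

def KWg (φ : FD) (L β : ℝ) (Φ : ℝ → ℝ) (y : ℝ) : ℝ :=
  (∫ v in Set.Ioi (0 : ℝ), Real.exp (-(Real.pi * v)) * v ^ φ.ex * Φ (TV L β v - y)) / g0g φ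

/-- the kernel including the powers of 2 -/
def KGg (φ : FD) (L β : ℝ) (Φ : ℝ → ℝ) (y : ℝ) : ℝ :=
  ∑' j : ℕ, (φ.η / Real.sqrt 2) ^ j * KWg φ L β Φ (y + j * (Real.log 2 / L))

/-- `1/(1 - η/√2)` -/
def ceg (φ : FD) : ℝ := 1 / (1 - φ.η / Real.sqrt 2)

/-- infinite sum over odd `n` -/
def Nfg (φ : FD) (L : ℝ) (V : ℝ → ℝ) (d : ℕ) : ℝ :=
  ∑' n : ℕ, jo φ d (n + 1) / Real.sqrt ((n : ℝ) + 1) * V (Real.log ((n : ℝ) + 1) / L)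

def beg (φ : FD) (L : ℝ) (d : ℕ) : ℝ := (Real.log ((φ.r : ℝ) * d / 8) - L) / (2 * L)

def Kdg (φ : FD) (L : ℝ) (d : ℕ) (x : ℝ) : ℝ :=
  Real.exp (-(x / 2)) * ((φ.r : ℝ) * d) ^ (x / (2 * L)) * gm (1 / 2 + φ.a + x / L) / g0g φ

def KEg (φ : FD) (L : ℝ) (d : ℕ) (x : ℝ) : ℝ :=
  Kdg φ L d x / (1 - φ.η * (2 : ℝ) ^ (-(1 / 2 + x / L)))

def G0g (φ : FD) (q : ℕ) (L c : ℝ) (w Q : ℝ → ℝ) (d : ℕ) : ℝ :=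
  1 - c * (Ndg φ q L w d * Mdg φ q L Q d)
def G1g (φ : FD) (q : ℕ) (L c c' : ℝ) (w w' Q Q' : ℝ → ℝ) (d : ℕ) : ℝ :=
  -(c' * (Ndg φ q L w d * Mdg φ q L Q d) +
    c * (Ndg φ q L w' d * Mdg φ q L Q d + Ndg φ q L w d * Mdg φ q L Q' d))

/-- sieved average -/
def ESg (φ : FD) (P : ℕ) (F : ℝ → ℝ) (X : ℝ) (f : ℕ → ℝ) : ℝ :=
  ∑ a ∈ P.divisors, ((ArithmeticFunction.moebius a : ℤ) : ℝ) / (a : ℝ) ^ 2 *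
    EAg φ F (X / (a : ℝ) ^ 2) (fun d => f (a ^ 2 * d))

def Edg (φ : FD) (q : ℕ) (L : ℝ) (a b η : ℝ → ℝ) (d : ℕ) : ℝ :=
  ∑' p : ℕ × ℕ, if p.1.Coprime q ∧ p.2.Coprime q then
    ((ArithmeticFunction.moebius p.2 : ℤ) : ℝ) * jo φ d (p.1 * p.2) /
      Real.sqrt ((p.1 : ℝ) * p.2) * a (Real.log p.1 / L) * b (Real.log p.2 / L) *
      η ((Real.log p.1 + Real.log p.2) / L) else 0

def bad1g (φ : FD) (L X0 : ℝ) (d : ℕ) : Prop :=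
  ∃ x : ℝ, 0 ≤ x ∧ x ≤ X0 ∧ LLg φ d (1 / 2 + x / L) = 0
def bad2g (φ : FD) (L X0 : ℝ) (d : ℕ) : Prop :=
  ∃ x : ℝ, X0 ≤ x ∧ x ≤ L / 2 ∧ LLg φ d (1 / 2 + x / L) = 0

/-- the squarefree `d` of the family -/
def SFg (φ : FD) : Set ℕ := {d | φ.A d ∧ Squarefree d}

/-- the true function `G` of the main range and its derivative -/
def Gtg (φ : FD) (L : ℝ) (ρ ζ χ c : ℝ → ℝ) (d : ℕ) (x : ℝ) : ℝ :=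
  1 - c x / ceg φ * (Nfg φ L (KGg φ L (beg φ L d) (Ph ρ x)) d * Mdg φ 2 L (qf ζ χ x) d)

def Gt1g (φ : FD) (L : ℝ) (ρ ζ χ c c' : ℝ → ℝ) (d : ℕ) (x : ℝ) : ℝ :=
  -(c' x / ceg φ * (Nfg φ L (KGg φ L (beg φ L d) (Ph ρ x)) d * Mdg φ 2 L (qf ζ χ x) d) +
    c x / ceg φ * (Nfg φ L (KGg φ L (beg φ L d) (Ph1 ρ x)) d * Mdg φ 2 L (qf ζ χ x) d +
      Nfg φ L (KGg φ L (beg φ L d) (Ph ρ x)) d * Mdg φ 2 L (qf1 ζ χ x) d))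

/-- the function `G` of the tail and its derivative -/
def Gug (φ : FD) (L : ℝ) (ρ r κ : ℝ → ℝ) (d : ℕ) (x : ℝ) : ℝ :=
  KEg φ L d x - Nfg φ L (KGg φ L (beg φ L d) (Ph ρ x)) d *
    Mdg φ 2 L (fun t => Real.exp (-(x * t)) * r t * κ t) d

def Gu1g (φ : FD) (L : ℝ) (ρ r κ : ℝ → ℝ) (d : ℕ) (x : ℝ) : ℝ :=
  KGg φ L (beg φ L d) (Ex1 x) 0 -
    (Nfg φ L (KGg φ L (beg φ L d) (Ph1 ρ x)) d *
        Mdg φ 2 L (fun t => Real.exp (-(x * t)) * r t * κ t) d +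
     Nfg φ L (KGg φ L (beg φ L d) (Ph ρ x)) d *
        Mdg φ 2 L (fun t => -t * Real.exp (-(x * t)) * r t * κ t) d)

/-- the arithmetic input -/
structure CG (φ : FD) : Prop where
  dpos : ∀ d, φ.A d → 0 < d
  chi : ∀ d, φ.A d → Squarefree d → ∃ (_ : NeZero (φ.r * d))
    (χ : DirichletCharacter ℂ (φ.r * d)), χ.IsPrimitive ∧ χ ^ 2 = 1 ∧ χ ≠ 1 ∧
      (∀ n : ℕ, n ≠ 0 → χ (n : ZMod (φ.r * d)) = ((cf φ d n : ℝ) : ℂ)) ∧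
      ∀ σ : ℝ, 0 < σ → DirichletCharacter.LFunction χ (σ : ℂ) = ((LLg φ d σ : ℝ) : ℂ)
  pos : ∀ d, φ.A d → Squarefree d → ∀ L : ℝ, 0 < L →
    (∀ x : ℝ, 0 ≤ x → x ≤ L / 2 → LLg φ d (1 / 2 + x / L) ≠ 0) →
    ∀ σ : ℝ, 0 < σ → σ < 1 → 0 < LLg φ d σ
  afe : ∀ d, φ.A d → Squarefree d → ∀ δ : ℝ, 0 < δ → ∀ ρ : ℝ → ℝ, RH δ ρ → ∀ L : ℝ, 0 < L →
    ∀ x : ℝ, 0 ≤ x →
      Nfg φ L (KGg φ L (beg φ L d) (Ph ρ x)) d = Kdg φ L d x * LLg φ d (1 / 2 + x / L)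

end

end Pool.Agent.H306R2.RG
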